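import Pool.Agent.Lib.MP_81308f_co.Full.VI

/-!
# Fixed point theorems for compact convex sets (Brouwer, Kakutani), zeros of inward fields on the simplex

* `brouwer`: a continuous self-map of a nonempty compact convex set of a finite-dimensional real normed space has a fixed point.
* `kakutani`: so has a set-valued map with nonempty convex values and closed graph.
* `simplex_zero`: a continuous `z` on the standard simplex with `∑ z = 0` and `0 ≤ z e` wherever `l e = 0` has a zero.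
* `simplex_zero_set`: the same for set-valued `z`.
-/

set_option autoImplicit false

open Set Metric
open scoped Topology

namespace Pool.Agent.Lib.MP_80160f_co.FP

/-- Brouwer, inner product spaces. -/
theorem brouwer_inner {V : Type*} [NormedAddCommGroup V] [InnerProductSpace ℝ V]
    [FiniteDimensional ℝ V] (K : Set V) (hne : K.Nonempty) (hK : IsCompact K) (hc : Convex ℝ K)
    (f : V → V) (hf : ContinuousOn f K) (hm : MapsTo f K K) : ∃ x ∈ K, f x = x := by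
  obtain ⟨x, hx, h⟩ := MP81308f.vi_inner K hne hK hc (fun x => x - f x) (continuousOn_id.sub hf)
  refine ⟨x, hx, ?_⟩
  have h1 := h (f x) (hm hx)
  have h2 : inner ℝ (x - f x) (f x - x) = -‖x - f x‖ ^ 2 := by
    rw [← neg_sub x (f x), inner_neg_right, real_inner_self_eq_norm_sq]
  rw [h2] at h1
  have h3 : ‖x - f x‖ ^ 2 = 0 := le_antisymm (by linarith) (sq_nonneg _)
  exact (sub_eq_zero.1 (norm_eq_zero.1 (pow_eq_zero_iff two_ne_zero |>.1 h3))).symm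

variable {E : Type*} [NormedAddCommGroup E] [NormedSpace ℝ E] [FiniteDimensional ℝ E]

/-- Brouwer's fixed point theorem. -/
theorem brouwer (K : Set E) (hne : K.Nonempty) (hK : IsCompact K) (hc : Convex ℝ K)
    (f : E → E) (hf : ContinuousOn f K) (hm : MapsTo f K K) : ∃ x ∈ K, f x = x := by
  let e : E ≃L[ℝ] EuclideanSpace ℝ (Fin (Module.finrank ℝ E)) := toEuclidean
  obtain ⟨y, hy, h⟩ := brouwer_inner (e '' K) (hne.image _) (hK.image e.continuous)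
    (hc.is_linear_image e.toLinearEquiv.toLinearMap.isLinear) (fun y => e (f (e.symm y))) (by
      refine e.continuous.comp_continuousOn (hf.comp e.symm.continuous.continuousOn ?_)
      rintro _ ⟨x, hx, rfl⟩
      simpa using hx) (by
      rintro _ ⟨x, hx, rfl⟩
      simp only [ContinuousLinearEquiv.symm_apply_apply]
      exact ⟨_, hm hx, rfl⟩)
  obtain ⟨x, hx, rfl⟩ := hy
  refine ⟨x, hx, ?_⟩
  simpa using h

omit [NormedSpace ℝ E] [FiniteDimensional ℝ E] in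
/-- Upper semicontinuity of a map with closed graph and values in a compact set. -/
theorem usc {X : Type*} [PseudoMetricSpace X] (K : Set X) (hK : IsCompact K) (L : Set E)
    (hL : IsCompact L) (F : X → Set E) (hFL : ∀ x ∈ K, F x ⊆ L)
    (hgr : IsClosed {p : X × E | p.1 ∈ K ∧ p.2 ∈ F p.1}) [T2Space X] (x : X) (U : Set E)
    (hU : IsOpen U) (hx : F x ⊆ U) : ∃ δ > 0, ∀ z ∈ K, dist z x < δ → F z ⊆ U := by
  have h1 : IsCompact ({p : X × E | p.1 ∈ K ∧ p.2 ∈ F p.1} ∩ {p | p.2 ∈ Uᶜ}) := by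
    refine (hK.prod hL).of_isClosed_subset
      (hgr.inter (hU.isClosed_compl.preimage continuous_snd)) ?_
    rintro p ⟨⟨hp1, hp2⟩, _⟩
    exact ⟨hp1, hFL _ hp1 hp2⟩
  have h2 := (h1.image continuous_fst).isClosed
  have h3 : x ∉ Prod.fst '' ({p : X × E | p.1 ∈ K ∧ p.2 ∈ F p.1} ∩ {p | p.2 ∈ Uᶜ}) := by
    rintro ⟨p, ⟨⟨hp1, hp2⟩, hp3⟩, rfl⟩
    exact hp3 (hx hp2)
  obtain ⟨δ, hδ, h4⟩ := Metric.isOpen_iff.1 h2.isOpen_compl x h3
  refine ⟨δ, hδ, fun z hz hzx y hy => ?_⟩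
  by_contra hyU
  exact h4 (mem_ball.2 hzx) ⟨(z, y), ⟨⟨hz, hy⟩, hyU⟩, rfl⟩

/-- An approximate fixed point. -/
theorem approx (K : Set E) (hne : K.Nonempty) (hK : IsCompact K) (hc : Convex ℝ K)
    (F : E → Set E) (hF : ∀ x ∈ K, (F x).Nonempty) (hFK : ∀ x ∈ K, F x ⊆ K) (ε : ℝ)
    (hε : 0 < ε) : ∃ x ∈ K, x ∈ convexHull ℝ {y | ∃ z ∈ K, dist z x < ε ∧ y ∈ F z} := by
  obtain ⟨t, htK, htf, hcov⟩ := hK.finite_cover_balls hε
  choose! y hy using hF
  obtain ⟨T, rfl⟩ := htf.exists_finset_coe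
  let w : E → E → ℝ := fun x z => max 0 (ε - dist z x)
  have hw0 : ∀ x z, 0 ≤ w x z := fun x z => le_max_left _ _
  have hwc : ∀ z, Continuous fun x => w x z := fun z => by fun_prop
  have hW : ∀ x ∈ K, 0 < ∑ z ∈ T, w x z := by
    intro x hx
    obtain ⟨z, hz, hxz⟩ := mem_iUnion₂.1 (hcov hx)
    refine Finset.sum_pos' (fun z _ => hw0 x z) ⟨z, by simpa using hz, ?_⟩
    have h1 : dist z x < ε := by
      rw [dist_comm]
      exact mem_ball.1 hxz
    exact lt_max_of_lt_right (by linarith)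
  obtain ⟨x, hx, hfx⟩ := brouwer K hne hK hc (fun x => T.centerMass (w x) y) (by
    unfold Finset.centerMass
    refine ContinuousOn.smul (ContinuousOn.inv₀ ?_ fun x hx => (hW x hx).ne') ?_
    · exact (continuous_finsetSum _ fun z _ => hwc z).continuousOn
    · exact (continuous_finsetSum _ fun z _ => (hwc z).smul continuous_const).continuousOn) (by
    intro x hx
    exact hc.centerMass_mem (fun z _ => hw0 x z) (hW x hx) fun z hz =>
      hFK z (htK (by simpa using hz)) (hy z (htK (by simpa using hz))))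
  refine ⟨x, hx, ?_⟩
  have hfx' : T.centerMass (w x) y = x := hfx
  suffices h : T.centerMass (w x) y ∈ convexHull ℝ {y | ∃ z ∈ K, dist z x < ε ∧ y ∈ F z} by
    rwa [hfx'] at h
  rw [← Finset.centerMass_filter_ne_zero]
  refine Finset.centerMass_mem_convexHull _ (fun z _ => hw0 x z) ?_ ?_
  · rw [Finset.sum_filter_ne_zero]
    exact hW x hx
  · intro z hz
    obtain ⟨hz1, hz2⟩ := Finset.mem_filter.1 hz
    have hzK : z ∈ K := htK (by simpa using hz1)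
    refine ⟨z, hzK, ?_, hy z hzK⟩
    by_contra h
    exact hz2 (max_eq_left (by linarith))

/-- Kakutani's fixed point theorem. -/
theorem kakutani (K : Set E) (hne : K.Nonempty) (hK : IsCompact K) (hc : Convex ℝ K)
    (F : E → Set E) (hF : ∀ x ∈ K, (F x).Nonempty) (hFc : ∀ x ∈ K, Convex ℝ (F x))
    (hFK : ∀ x ∈ K, F x ⊆ K) (hgr : IsClosed {p : E × E | p.1 ∈ K ∧ p.2 ∈ F p.1}) :
    ∃ x ∈ K, x ∈ F x := by
  choose u huK hu using fun n : ℕ =>
    approx K hne hK hc F hF hFK (1 / ((n : ℝ) + 1)) Nat.one_div_pos_of_nat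
  obtain ⟨x, hx, φ, hφ, hlim⟩ := hK.tendsto_subseq huK
  refine ⟨x, hx, ?_⟩
  have hcl : IsClosed (F x) := by
    have h1 : F x = (fun y : E => (x, y)) ⁻¹' {p : E × E | p.1 ∈ K ∧ p.2 ∈ F p.1} := by
      ext y
      simp [hx]
    rw [h1]
    exact hgr.preimage (by fun_prop)
  have key : ∀ ε : ℝ, 0 < ε → infDist x (F x) ≤ ε := by
    intro ε hε
    obtain ⟨δ, hδ, hδ'⟩ := usc K hK K hK F hFK hgr x (thickening ε (F x)) isOpen_thickening
      (self_subset_thickening hε _)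
    have hconv : Convex ℝ (thickening ε (F x)) := (hFc x hx).thickening ε
    have hev : ∀ᶠ n in Filter.atTop, u (φ n) ∈ thickening ε (F x) := by
      have h1 : ∀ᶠ n in Filter.atTop, dist (u (φ n)) x < δ / 2 :=
        (tendsto_iff_dist_tendsto_zero.1 hlim).eventually (gt_mem_nhds (by linarith))
      have h2 : ∀ᶠ n : ℕ in Filter.atTop, 1 / ((φ n : ℝ) + 1) < δ / 2 :=
        (tendsto_one_div_add_atTop_nhds_zero_nat.comp hφ.tendsto_atTop).eventually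
          (gt_mem_nhds (by linarith))
      filter_upwards [h1, h2] with n hn1 hn2
      refine convexHull_min ?_ hconv (hu (φ n))
      rintro y ⟨z, hz, hzd, hyz⟩
      refine hδ' z hz ?_ hyz
      have := dist_triangle z (u (φ n)) x
      linarith
    have h3 : x ∈ closure (thickening ε (F x)) := mem_closure_of_tendsto hlim hev
    have h4 : x ∈ cthickening ε (F x) := closure_thickening_subset_cthickening ε _ h3
    exact ENNReal.toReal_le_of_le_ofReal hε.le (mem_cthickening_iff.1 h4)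
  have h0 : infDist x (F x) = 0 :=
    le_antisymm (le_of_forall_pos_le_add fun ε hε => by rw [zero_add]; exact key ε hε)
      infDist_nonneg
  exact (hcl.mem_iff_infDist_zero (hF x hx)).2 h0

section Simplex

variable {ι : Type*} [Fintype ι]

/-- If `l` is a point of the simplex which maximises `∑ z e * l e`, the sum of the `z e` is `0` and `0 ≤ z e` where `l e = 0`,
then `z = 0`. -/
theorem zero_of_max (l z : ι → ℝ) (hl : l ∈ stdSimplex ℝ ι)
    (hmax : ∀ l' ∈ stdSimplex ℝ ι, ∑ e, z e * l' e ≤ ∑ e, z e * l e) (hs : ∑ e, z e = 0)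
    (hin : ∀ e, l e = 0 → 0 ≤ z e) : z = 0 := by
  classical
  set M : ℝ := ∑ e, z e * l e with hM
  have h1 : ∀ e, z e ≤ M := by
    intro e
    have h := hmax (Pi.single e 1) (single_mem_stdSimplex ℝ e)
    simpa [Pi.single_apply] using h
  have h2 : ∀ e, l e ≠ 0 → z e = M := by
    have h3 : ∑ e, (M - z e) * l e = 0 := by
      have : ∑ e, (M - z e) * l e = M * ∑ e, l e - ∑ e, z e * l e := by
        rw [Finset.mul_sum, ← Finset.sum_sub_distrib]
        exact Finset.sum_congr rfl fun e _ => by ring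
      rw [this, hl.2, mul_one, hM, sub_self]
    intro e he
    have h4 := (Finset.sum_eq_zero_iff_of_nonneg fun e _ =>
      mul_nonneg (sub_nonneg.2 (h1 e)) (hl.1 e)).1 h3 e (Finset.mem_univ e)
    have h5 := (mul_eq_zero.1 h4).resolve_right he
    linarith
  obtain ⟨e₀, he₀⟩ : ∃ e, l e ≠ 0 := by
    by_contra h
    push Not at h
    have h3 := hl.2
    simp [h] at h3
  have hM0 : M = 0 := by
    rcases lt_trichotomy M 0 with h | h | h
    · exfalso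
      have h3 : ∑ e, z e < 0 := by
        refine Finset.sum_neg (fun e _ => (h1 e).trans_lt h) ⟨e₀, Finset.mem_univ _⟩
      linarith
    · exact h
    · exfalso
      have h3 : 0 < ∑ e, z e := by
        refine Finset.sum_pos' (fun e _ => ?_) ⟨e₀, Finset.mem_univ _, by rw [h2 e₀ he₀]; exact h⟩
        by_cases he : l e = 0
        · exact hin e he
        · rw [h2 e he]
          exact h.le
      linarith
  funext e
  by_cases he : l e = 0
  · exact le_antisymm ((h1 e).trans hM0.le) (hin e he)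
  · rw [h2 e he, hM0]
    rfl

/-- A set-valued field on the simplex with closed graph and nonempty bounded convex values, sum `0`, pointing inwards,
vanishes somewhere. `Y` is a compact convex set of further parameters: the field may depend on a point `y` of `Y` which is
itself chosen from a set `G l y`. -/
theorem simplex_zero_param [Nonempty ι] (Y : Set E) (hYn : Y.Nonempty) (hY : IsCompact Y)
    (hYc : Convex ℝ Y) (Z : (ι → ℝ) → E → Set (ι → ℝ)) (G : (ι → ℝ) → E → Set E) (R : ℝ)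
    (hZn : ∀ l ∈ stdSimplex ℝ ι, ∀ y ∈ Y, (Z l y).Nonempty)
    (hZc : ∀ l ∈ stdSimplex ℝ ι, ∀ y ∈ Y, Convex ℝ (Z l y))
    (hZR : ∀ l ∈ stdSimplex ℝ ι, ∀ y ∈ Y, ∀ z ∈ Z l y, ‖z‖ ≤ R)
    (hZg : IsClosed {p : ((ι → ℝ) × E) × (ι → ℝ) |
      (p.1.1 ∈ stdSimplex ℝ ι ∧ p.1.2 ∈ Y) ∧ p.2 ∈ Z p.1.1 p.1.2})
    (hGn : ∀ l ∈ stdSimplex ℝ ι, ∀ y ∈ Y, (G l y).Nonempty)
    (hGc : ∀ l ∈ stdSimplex ℝ ι, ∀ y ∈ Y, Convex ℝ (G l y))
    (hGY : ∀ l ∈ stdSimplex ℝ ι, ∀ y ∈ Y, G l y ⊆ Y)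
    (hGg : IsClosed {p : ((ι → ℝ) × E) × E |
      (p.1.1 ∈ stdSimplex ℝ ι ∧ p.1.2 ∈ Y) ∧ p.2 ∈ G p.1.1 p.1.2})
    (hs : ∀ l ∈ stdSimplex ℝ ι, ∀ y ∈ Y, ∀ z ∈ Z l y, ∑ e, z e = 0)
    (hin : ∀ l ∈ stdSimplex ℝ ι, ∀ y ∈ Y, ∀ z ∈ Z l y, ∀ e, l e = 0 → 0 ≤ z e) :
    ∃ l ∈ stdSimplex ℝ ι, ∃ y ∈ Y, (0 : ι → ℝ) ∈ Z l y ∧ y ∈ G l y := by
  classical
  have hΔ : IsCompact (stdSimplex ℝ ι) := isCompact_stdSimplex ℝ ι
  have hΔn : (stdSimplex ℝ ι).Nonempty := ⟨_, single_mem_stdSimplex ℝ (Classical.arbitrary ι)⟩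
  let Mx : (ι → ℝ) → Set (ι → ℝ) := fun z =>
    {l | l ∈ stdSimplex ℝ ι ∧ ∀ l' ∈ stdSimplex ℝ ι, ∑ e, z e * l' e ≤ ∑ e, z e * l e}
  let K : Set ((ι → ℝ) × (E × (ι → ℝ))) := stdSimplex ℝ ι ×ˢ (Y ×ˢ closedBall 0 R)
  let F : (ι → ℝ) × (E × (ι → ℝ)) → Set ((ι → ℝ) × (E × (ι → ℝ))) := fun p =>
    Mx p.2.2 ×ˢ (G p.1 p.2.1 ×ˢ Z p.1 p.2.1)
  obtain ⟨l₀, hl₀⟩ := hΔn
  obtain ⟨y₀, hy₀⟩ := hYn
  obtain ⟨z₀, hz₀⟩ := hZn l₀ hl₀ y₀ hy₀
  have hcont : ∀ z : ι → ℝ, Continuous fun l : ι → ℝ => ∑ e, z e * l e := fun z => by fun_prop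
  obtain ⟨⟨l, y, z⟩, ⟨hl, hy, hz⟩, ⟨hml, hg, hzz⟩⟩ := kakutani K
    ⟨(l₀, y₀, z₀), hl₀, hy₀, mem_closedBall_zero_iff.2 (hZR l₀ hl₀ y₀ hy₀ z₀ hz₀)⟩
    (hΔ.prod (hY.prod (isCompact_closedBall 0 R)))
    ((convex_stdSimplex ℝ ι).prod (hYc.prod (convex_closedBall 0 R))) F (by
      rintro ⟨l, y, z⟩ ⟨hl, hy, hz⟩
      obtain ⟨l', hl', hmax⟩ := hΔ.exists_isMaxOn ⟨l₀, hl₀⟩ (hcont z).continuousOn
      obtain ⟨z', hz'⟩ := hZn l hl y hy
      obtain ⟨y', hy'⟩ := hGn l hl y hy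
      exact ⟨(l', y', z'), ⟨hl', fun l'' h => hmax h⟩, hy', hz'⟩) (by
      rintro ⟨l, y, z⟩ ⟨hl, hy, hz⟩
      refine Convex.prod ?_ ((hGc l hl y hy).prod (hZc l hl y hy))
      rintro a ⟨ha, ha'⟩ b ⟨hb, hb'⟩ s t hs0 ht0 hst
      refine ⟨convex_stdSimplex ℝ ι ha hb hs0 ht0 hst, fun l' hl' => ?_⟩
      have e1 : ∑ e, z e * (s • a + t • b) e = s * ∑ e, z e * a e + t * ∑ e, z e * b e := by
        rw [Finset.mul_sum, Finset.mul_sum, ← Finset.sum_add_distrib]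
        refine Finset.sum_congr rfl fun e _ => ?_
        simp only [Pi.add_apply, Pi.smul_apply, smul_eq_mul]
        ring
      have e2 : ∑ e, z e * l' e = s * ∑ e, z e * l' e + t * ∑ e, z e * l' e := by
        rw [← add_mul, hst, one_mul]
      show ∑ e, z e * l' e ≤ ∑ e, z e * (s • a + t • b) e
      rw [e1, e2]
      exact add_le_add (mul_le_mul_of_nonneg_left (ha' l' hl') hs0)
        (mul_le_mul_of_nonneg_left (hb' l' hl') ht0)) (by
      rintro ⟨l, y, z⟩ ⟨hl, hy, hz⟩ ⟨l', y', z'⟩ ⟨hl', hy', hz'⟩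
      exact ⟨hl'.1, hGY l hl y hy hy', mem_closedBall_zero_iff.2 (hZR l hl y hy z' hz')⟩) (by
      have h1 : IsClosed {p : ((ι → ℝ) × (E × (ι → ℝ))) × ((ι → ℝ) × (E × (ι → ℝ))) |
          p.1.2.2 ∈ closedBall (0 : ι → ℝ) R} :=
        isClosed_closedBall.preimage (by fun_prop)
      have h2 : IsClosed {p : ((ι → ℝ) × (E × (ι → ℝ))) × ((ι → ℝ) × (E × (ι → ℝ))) |
          p.2.1 ∈ stdSimplex ℝ ι} := hΔ.isClosed.preimage (by fun_prop)
      have h3 : IsClosed {p : ((ι → ℝ) × (E × (ι → ℝ))) × ((ι → ℝ) × (E × (ι → ℝ))) |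
          ∀ l' ∈ stdSimplex ℝ ι, ∑ e, p.1.2.2 e * l' e ≤ ∑ e, p.1.2.2 e * p.2.1 e} := by
        simp only [ofPred_forall]
        exact isClosed_iInter fun l' => isClosed_iInter fun _ =>
          isClosed_le (by fun_prop) (by fun_prop)
      have h4 : IsClosed {p : ((ι → ℝ) × (E × (ι → ℝ))) × ((ι → ℝ) × (E × (ι → ℝ))) |
          (p.1.1 ∈ stdSimplex ℝ ι ∧ p.1.2.1 ∈ Y) ∧ p.2.2.2 ∈ Z p.1.1 p.1.2.1} :=
        hZg.preimage (f := fun p : ((ι → ℝ) × (E × (ι → ℝ))) × ((ι → ℝ) × (E × (ι → ℝ))) =>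
          (((p.1.1, p.1.2.1), p.2.2.2) : ((ι → ℝ) × E) × (ι → ℝ))) (by fun_prop)
      have h5 : IsClosed {p : ((ι → ℝ) × (E × (ι → ℝ))) × ((ι → ℝ) × (E × (ι → ℝ))) |
          (p.1.1 ∈ stdSimplex ℝ ι ∧ p.1.2.1 ∈ Y) ∧ p.2.2.1 ∈ G p.1.1 p.1.2.1} :=
        hGg.preimage (f := fun p : ((ι → ℝ) × (E × (ι → ℝ))) × ((ι → ℝ) × (E × (ι → ℝ))) =>
          (((p.1.1, p.1.2.1), p.2.2.1) : ((ι → ℝ) × E) × E)) (by fun_prop)
      have h6 := h1.inter (h2.inter (h3.inter (h4.inter h5)))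
      refine (congrArg IsClosed ?_).mp h6
      ext ⟨⟨l, y, z⟩, ⟨l', y', z'⟩⟩
      simp only [mem_inter_iff, mem_ofPred_eq, K, F, Mx, mem_prod]
      tauto)
  refine ⟨l, hl, y, hy, ?_, hg⟩
  have h0 : z = 0 := zero_of_max l z hl hml.2 (hs l hl y hy z hzz) (hin l hl y hy z hzz)
  rw [← h0]
  exact hzz

/-- Set-valued fields on the simplex. -/
theorem simplex_zero_set [Nonempty ι] (Z : (ι → ℝ) → Set (ι → ℝ)) (R : ℝ)
    (hZn : ∀ l ∈ stdSimplex ℝ ι, (Z l).Nonempty) (hZc : ∀ l ∈ stdSimplex ℝ ι, Convex ℝ (Z l))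
    (hZR : ∀ l ∈ stdSimplex ℝ ι, ∀ z ∈ Z l, ‖z‖ ≤ R)
    (hZg : IsClosed {p : (ι → ℝ) × (ι → ℝ) | p.1 ∈ stdSimplex ℝ ι ∧ p.2 ∈ Z p.1})
    (hs : ∀ l ∈ stdSimplex ℝ ι, ∀ z ∈ Z l, ∑ e, z e = 0)
    (hin : ∀ l ∈ stdSimplex ℝ ι, ∀ z ∈ Z l, ∀ e, l e = 0 → 0 ≤ z e) :
    ∃ l ∈ stdSimplex ℝ ι, (0 : ι → ℝ) ∈ Z l := by
  obtain ⟨l, hl, _, _, h, _⟩ := simplex_zero_param (E := ℝ) {0} (singleton_nonempty 0)
    isCompact_singleton (convex_singleton 0) (fun l _ => Z l) (fun _ _ => {0}) R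
    (fun l hl _ _ => hZn l hl) (fun l hl _ _ => hZc l hl) (fun l hl _ _ => hZR l hl) (by
      have h1 : IsClosed {p : ((ι → ℝ) × ℝ) × (ι → ℝ) | p.1.1 ∈ stdSimplex ℝ ι ∧ p.2 ∈ Z p.1.1} :=
        hZg.preimage (f := fun p : ((ι → ℝ) × ℝ) × (ι → ℝ) => ((p.1.1, p.2) : (ι → ℝ) × (ι → ℝ)))
          (by fun_prop)
      have h2 : IsClosed {p : ((ι → ℝ) × ℝ) × (ι → ℝ) | p.1.2 ∈ ({0} : Set ℝ)} :=
        isClosed_singleton.preimage (by fun_prop)
      refine (congrArg IsClosed ?_).mp (h1.inter h2)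
      ext ⟨⟨l, y⟩, z⟩
      simp only [mem_inter_iff, mem_ofPred_eq]
      tauto)
    (fun _ _ _ _ => singleton_nonempty 0) (fun _ _ _ _ => convex_singleton 0)
    (fun _ _ _ _ => subset_rfl) (by
      have h1 : IsClosed {p : ((ι → ℝ) × ℝ) × ℝ | p.1.1 ∈ stdSimplex ℝ ι} :=
        (isCompact_stdSimplex ℝ ι).isClosed.preimage (by fun_prop)
      have h2 : IsClosed {p : ((ι → ℝ) × ℝ) × ℝ | p.1.2 ∈ ({0} : Set ℝ)} :=
        isClosed_singleton.preimage (by fun_prop)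
      have h3 : IsClosed {p : ((ι → ℝ) × ℝ) × ℝ | p.2 ∈ ({0} : Set ℝ)} :=
        isClosed_singleton.preimage (by fun_prop)
      refine (congrArg IsClosed ?_).mp (h1.inter (h2.inter h3))
      ext ⟨⟨l, y⟩, z⟩
      simp only [mem_inter_iff, mem_ofPred_eq]
      tauto)
    (fun l hl _ _ => hs l hl) (fun l hl _ _ => hin l hl)
  exact ⟨l, hl, h⟩

/-- Continuous fields on the simplex. -/
theorem simplex_zero [Nonempty ι] (z : (ι → ℝ) → ι → ℝ) (hz : ContinuousOn z (stdSimplex ℝ ι))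
    (hs : ∀ l ∈ stdSimplex ℝ ι, ∑ e, z l e = 0)
    (hin : ∀ l ∈ stdSimplex ℝ ι, ∀ e, l e = 0 → 0 ≤ z l e) : ∃ l ∈ stdSimplex ℝ ι, z l = 0 := by
  have hΔ : IsCompact (stdSimplex ℝ ι) := isCompact_stdSimplex ℝ ι
  obtain ⟨R, hR⟩ := (hΔ.image_of_continuousOn hz).isBounded.exists_norm_le
  obtain ⟨l, hl, h⟩ := simplex_zero_set (fun l => {z l}) R (fun _ _ => singleton_nonempty _)
    (fun _ _ => convex_singleton _) (by
      rintro l hl _ rfl
      exact hR _ ⟨l, hl, rfl⟩) (by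
      have h1 : IsCompact ((fun l => (l, z l)) '' stdSimplex ℝ ι) :=
        hΔ.image_of_continuousOn (continuousOn_id.prodMk hz)
      refine (congrArg IsClosed ?_).mp h1.isClosed
      ext ⟨l, y⟩
      constructor
      · rintro ⟨l', hl', h⟩
        obtain ⟨rfl, rfl⟩ := Prod.mk.inj h
        exact ⟨hl', rfl⟩
      · rintro ⟨hl, h⟩
        exact ⟨l, hl, Prod.ext rfl (Eq.symm h)⟩) (by
      rintro l hl _ rfl
      exact hs l hl) (by
      rintro l hl _ rfl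
      exact hin l hl)
  exact ⟨l, hl, h.symm⟩

end Simplex

end Pool.Agent.Lib.MP_80160f_co.FP
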